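import Pool.Agent.Work.MP_bd2638_an.AllL

/-!
# MP_bd2638_an: Lyapunov exponents at the periodic points of trapping regions

`M` is a compact connected smooth manifold without boundary, `f` a `C^1` Anosov diffeomorphism of `M`
whose Jacobian determinant is Hölder continuous. Either `f` is not transitive, it has trapping
regions, and every trapping region `U` contains a periodic point `p` with `Λ^s(p) < - Λ^u(p)` while
outside its closure there is a periodic point `q` with `- Λ^u(q) < Λ^s(q)`; or `f` is transitive, and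
then such `p` and `q` exist in `M` or `Λ^s = - Λ^u` at all periodic points. The definitions are in
`Pool.Agent.Work.MP_bd2638_an.{Sys, Stmt, StmtR, AllL}`.
-/

set_option autoImplicit false

namespace Pool.Agent.Results.MP_bd2638_an.TrappingRegions

open Pool.AN

theorem result :
    ∀ (d : ℕ) (M : Type) [TopologicalSpace M] [T2Space M] [CompactSpace M] [ConnectedSpace M]
      [ChartedSpace (EE d) M] [Mfd d M] (f : M → M) (P : M → LL d) (α : ℝ),
      IsDiffeo d f → Anosov f P → 0 < α → HolderDet d f α →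
      (¬ Trans f ∧ (∃ U : Set M, Trapping f U) ∧ ∀ U : Set M, Trapping f U →
        (∃ (k : ℕ) (p : M), 0 < k ∧ f^[k] p = p ∧ p ∈ U ∧ Ls f P k p < - Lu f P k p) ∧
        ∃ (k : ℕ) (q : M), 0 < k ∧ f^[k] q = q ∧ q ∉ closure U ∧ - Lu f P k q < Ls f P k q) ∨
      (Trans f ∧
        (((∃ (k : ℕ) (p : M), 0 < k ∧ f^[k] p = p ∧ Ls f P k p < - Lu f P k p) ∧
          ∃ (k : ℕ) (q : M), 0 < k ∧ f^[k] q = q ∧ - Lu f P k q < Ls f P k q) ∨
        ∀ (k : ℕ) (p : M), 0 < k → f^[k] p = p → Ls f P k p = - Lu f P k p)) := by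
  intro d M _ _ _ _ _ _ f P α hF hA hα hH
  obtain ⟨h1, h2⟩ := t_ANLR d M f P α hF hA hα hH
  by_cases ht : Trans f
  · right
    refine ⟨ht, ?_⟩
    rcases t_ANR d M f P α hF hA hα hH with h | ⟨h, -⟩
    · exact Or.inl h
    · exact Or.inr h
  · left
    obtain ⟨U, hU⟩ := h2 ht
    refine ⟨ht, ⟨U, hU⟩, fun U hU => ?_⟩
    obtain ⟨⟨k, p, hk, hpU, hp, hlt⟩, ⟨l, q, hl, hqU, hq, hgt⟩⟩ :=
      h1 U hU.1 hU.2.1 hU.2.2.1 hU.2.2.2
    exact ⟨⟨k, p, hk, hp, hpU, hlt⟩, ⟨l, q, hl, hq, hqU, hgt⟩⟩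

end Pool.Agent.Results.MP_bd2638_an.TrappingRegions
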